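import Pool.Agent.H.MP_01886a_al.B

set_option autoImplicit false

namespace Pool.Agent.Results.MP_01886a_al.Yes

open Finset Finsupp Pool.Agent.HShift

variable {n : ℕ}

/-- The graded Betti number: the sum of the multigraded ones of total degree `d`. -/
noncomputable def gb {K : Type} [Field K] (J : Ideal (MvPolynomial (Fin n) K)) (i d : ℕ) : ℕ :=
  ∑ a ∈ finsuppAntidiag univ d, betti J i a

/-- The graded Betti numbers of a family of ideals, one over each field, depend on the field. -/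
def Dep (I : ∀ (K : Type) [Field K], Ideal (MvPolynomial (Fin n) K)) : Prop :=
  ∃ (K K' : Type) (_ : Field K) (_ : Field K') (i d : ℕ), gb (I K) i d ≠ gb (I K') i d

/-- Exponents of the generators of the edge ideal. -/
def EB (G : SimpleGraph (Fin n)) : Set (Fin n →₀ ℕ) :=
  {u | ∃ i j, G.Adj i j ∧ u = single i 1 + single j 1}

/-- Exponents of the generators of the edge ideal of the cone, whose new vertex is `0`. -/
def CB (G : SimpleGraph (Fin n)) : Set (Fin (n + 1) →₀ ℕ) :=
  {u | ∃ i j, G.Adj i j ∧ u = single i.succ 1 + single j.succ 1} ∪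
    {u | ∃ i : Fin n, u = single 0 1 + single i.succ 1}

lemma rk_congr {K : Type} [Field K] {Δ Δ' : Finset (Fin n) → Prop} {i : ℕ}
    (h : ∀ F, #F = i → (Δ F ↔ Δ' F)) : rk K Δ i = rk K Δ' i := by
  rw [rk, rk, Ch, Ch, show {F | Δ F ∧ #F = i} = {F | Δ' F ∧ #F = i} from
    Set.ext fun F => and_congr_left (h F)]

lemma dl2 {B : Set (Fin n →₀ ℕ)} {a : Fin n →₀ ℕ} {F : Finset (Fin n)} : Dl (Sm B 2) a F ↔
    ∃ u ∈ B, ∃ v ∈ B, ∀ j, u j + v j + (if j ∈ F then 1 else 0) ≤ a j :=
  ⟨fun ⟨_, ⟨b, h, rfl⟩, h'⟩ => ⟨b 0, h 0, b 1, h 1, by simpa using h'⟩, fun ⟨u, h, v, h', h1⟩ =>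
    ⟨_, ⟨![u, v], by simp [Fin.forall_fin_two, h, h'], rfl⟩, by simpa using h1⟩⟩

theorem result (n : ℕ) (G : SimpleGraph (Fin n)) (h : Dep fun K _ => mi K (EB G)) :
    Dep fun K _ => mi K (CB G) ^ 2 := by
  obtain ⟨K, K', _, _, i, d, h⟩ := h
  obtain ⟨a, L, _, t, h⟩ : ∃ (a : _) (L : Type) (_ : Field L) (t : ℕ),
      rk L (Dl (EB G) a) t ≠ rk ℚ (Dl (EB G) a) t := by
    by_contra h1
    push Not at h1
    refine h (sum_congr rfl fun a _ => ?_)
    have := betti_add (K := K) (B := EB G) (a := a) (i := i)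
    rw [← betti_add (K := K'), h1 a K, h1 a K, h1 a K', h1 a K'] at this
    exact add_right_cancel this
  have h1 : ∀ j, a j ≤ 1 := fun j => not_lt.1 fun h1 => h ((conc_cone j
    fun F _ ⟨_, ⟨u, v, h2, rfl⟩, h3⟩ => ⟨_, ⟨u, v, h2, rfl⟩, fun l => by
      have := h3 l
      have := h2.ne
      simp only [Finsupp.add_apply, single_apply, mem_insert] at *
      grind⟩).rk Dl_down ℚ t)
  have h2 : ∀ F, Dl (EB G) a F → F ⊆ a.support ∧ #F + 2 ≤ #a.support := by
    rintro F ⟨_, ⟨u, v, h2, rfl⟩, h3⟩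
    have h4 := h3 u
    have h5 := h3 v
    have := h1 u
    have := h1 v
    simp only [Finsupp.add_apply, single_apply, if_true] at h4 h5
    have h6 : insert u (insert v F) ⊆ a.support := fun j hj => by
      have := h3 j
      simp only [Finsupp.add_apply, single_apply, mem_insert, mem_support_iff] at *
      grind
    have := card_le_card h6
    rw [card_insert_of_notMem (by simp [h2.ne]; grind), card_insert_of_notMem (by grind)] at this
    exact ⟨((subset_insert _ _).trans (subset_insert _ _)).trans h6, this⟩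
  have h3 : t + 3 ≤ #a.support := not_lt.1 fun h3 => h <| by
    rcases (show #a.support = t + 2 ∨ #a.support < t + 2 by omega) with h4 | h4
    · exact rk_top _ h4 fun F hF => (h2 F hF).1
    · have e : ∀ (K : Type) [Field K], rk K (Dl (EB G) a) t = 0 := fun K _ => by
        have := rk_add (K := K) (Δ := Dl (EB G) a) (i := t)
        rw [Set.eq_empty_of_forall_notMem (s := {F | _ ∧ _}) fun F hF => by
          have := (h2 F hF.1).2
          have := hF.2
          omega] at this
        exact (by simpa using this : _ ∧ _).1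
      rw [e, e]
  have h4 : ∀ F : Finset (Fin n), #F ≤ t + 2 → ∃ u, a u ≠ 0 ∧ u ∉ F := fun F hF => by
    simpa using exists_mem_notMem_of_card_lt_card (s := F) (t := a.support) (by omega)
  have e : ∀ (K : Type) [Field K], rk K (Dl (Sm (CB G) 2) (a.cons 2)) (t + 1) =
      rk K (Dl (EB G) a) t + rk K (fun F => Dl (Sm (CB G) 2) (a.cons 2) (up F)) (t + 1) := by
    intro K _
    rw [rk_ld Dl_down fun c hc h0 => ?_, rk_congr fun F hF => ?_]
    · simp only [dl2, Fin.forall_fin_succ, mem_insert, Fin.succ_ne_zero, false_or, up_mem,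
        cons_zero, cons_succ, true_or, if_true]
      constructor
      · rintro ⟨_, ⟨u, v, h5, rfl⟩ | ⟨u, rfl⟩, _, h6, h7, h8⟩
        · exact ⟨_, ⟨u, v, h5, rfl⟩, fun j => (h8 j).trans' (by simp [single_apply])⟩
        · rcases h6 with ⟨u, v, h5, rfl⟩ | ⟨v, rfl⟩
          · exact ⟨_, ⟨u, v, h5, rfl⟩, fun j => (h8 j).trans' (by simp [single_apply])⟩
          · simp at h7
      · rintro ⟨_, ⟨u, v, h5, rfl⟩, h6⟩
        obtain ⟨w, h7, h8⟩ := h4 (insert u (insert v F))
          ((card_insert_le _ _).trans (add_le_add_left ((card_insert_le _ _).trans_eq (by rw [hF])) 1))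
        refine ⟨_, .inl ⟨u, v, h5, rfl⟩, _, .inr ⟨w, rfl⟩, by simp, fun j => ?_⟩
        have := h6 j
        simp only [Finsupp.add_apply, single_apply, mem_insert, Fin.succ_inj,
          (Fin.succ_ne_zero _).symm] at *
        grind
    · obtain ⟨v, hv, -⟩ := h4 ∅ (by simp)
      refine ⟨cone v c, hc.cone fun F h5 h6 h7 => ?_, by rw [bd_cone, h0, cone_zero, sub_zero]⟩
      obtain ⟨u, h8, h9⟩ := h4 (insert v F) (by rw [card_insert_of_notMem h5]; omega)
      obtain ⟨w, h10, h11⟩ := h4 (insert u (insert v F))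
        (by rw [card_insert_of_notMem h9, card_insert_of_notMem h5]; omega)
      simp only [dl2, Fin.forall_fin_succ, up_mem, cons_zero, cons_succ, up0, if_false] at h6 ⊢
      obtain ⟨_, -, _, -, -, h6⟩ := h6
      refine ⟨_, .inr ⟨u, rfl⟩, _, .inr ⟨w, rfl⟩, by simp, fun j => ?_⟩
      have := h6 j
      simp only [Finsupp.add_apply, single_apply, mem_insert, Fin.succ_inj,
        (Fin.succ_ne_zero _).symm] at *
      grind
  have e1 : ∀ (K : Type) [Field K], mi K (CB G) ^ 2 = mi K (Sm (CB G) 2) := fun K _ => span_pow _ 2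
  refine ⟨ℚ, L, inferInstance, inferInstance, t + 1, _, (sum_lt_sum (fun b _ => ?_)
    ⟨a.cons 2, mem_finsuppAntidiag.2 ⟨rfl, subset_univ _⟩, ?_⟩).ne⟩ <;> simp only [e1]
  · have := betti_add (K := L) (B := Sm (CB G) 2) (a := b) (i := t + 1)
    rw [← betti_add (K := ℚ)] at this
    have := rk_le (K := L) (Δ := Dl (Sm (CB G) 2) b) (i := t + 1)
    have := rk_le (K := L) (Δ := Dl (Sm (CB G) 2) b) (i := t + 1 + 1)
    omega
  · have := betti_add (K := L) (B := Sm (CB G) 2) (a := a.cons 2) (i := t + 1)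
    rw [← betti_add (K := ℚ), e, e] at this
    have := rk_le (K := L) (Δ := Dl (EB G) a) (i := t)
    have := rk_le (K := L) (Δ := fun F => Dl (Sm (CB G) 2) (a.cons 2) (up F)) (i := t + 1)
    have := rk_le (K := L) (Δ := Dl (Sm (CB G) 2) (a.cons 2)) (i := t + 1 + 1)
    omega

end Pool.Agent.Results.MP_01886a_al.Yes
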